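import Pool.Agent.W483.FB.Stm

/-!
# FB-8: energy of the state
-/

set_option autoImplicit false

open Finset Matrix

namespace Pool.Agent.W376.FB

open Pool.Agent.W483.FB

lemma sg_ne {a b : Bool} (h : a ≠ b) : sg a ≠ sg b := by
  revert h
  cases a <;> cases b <;> intro h <;> simp [sg] at * <;> norm_num

lemma sg_not (b : Bool) : sg (!b) = -sg b := by cases b <;> simp [sg]

/-- orthonormal square families are complete -/
lemma complete {ι : Type} [Fintype ι] [DecidableEq ι] {u : ι → ι → ℝ} (hu : Orth u) (x y : ι) :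
    ∑ s, u s x * u s y = if x = y then 1 else 0 := by
  have h1 : (Matrix.of u) * (Matrix.of u)ᵀ = 1 := by
    ext i j
    rw [Matrix.mul_apply, Matrix.one_apply, ← hu i j]
    rfl
  have h2 := _root_.mul_eq_one_comm.mp h1
  have h3 := congrFun (congrFun h2 x) y
  rw [Matrix.mul_apply, Matrix.one_apply] at h3
  exact h3

lemma parseval {ι : Type} [Fintype ι] [DecidableEq ι] {u : ι → ι → ℝ} (hu : Orth u) (w : ι → ℝ) :
    ∑ s, (u s ⬝ᵥ w) ^ 2 = w ⬝ᵥ w := by
  have h1 : ∀ s, (u s ⬝ᵥ w) ^ 2 = ∑ x, ∑ y, (u s x * u s y) * (w x * w y) := by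
    intro s
    rw [sq, dotProduct, Finset.sum_mul_sum]
    refine Finset.sum_congr rfl fun x _ => Finset.sum_congr rfl fun y _ => ?_
    ring
  simp only [h1]
  rw [Finset.sum_comm]
  unfold dotProduct
  refine Finset.sum_congr rfl fun x _ => ?_
  rw [Finset.sum_comm]
  have h2 : ∀ y, ∑ s, (u s x * u s y) * (w x * w y) = (if x = y then 1 else 0) * (w x * w y) := by
    intro y
    rw [← Finset.sum_mul, complete hu]
  simp only [h2]
  simp

theorem t_energy (ha : S_alg) (hp : S_pw) : S_energy := by
  intro n c a u nu hOa hOu hC hnu v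
  have hEE : ∀ j, c.E (a j) * c.E (a j) = 1 := by
    intro j
    have h := (ha n c (a j) (a j)).1
    rw [hOa j j, if_pos rfl, mul_one, ← two_smul ℝ] at h
    exact smul_right_injective _ (two_ne_zero (α := ℝ)) h
  have hEk : ∀ j k, j ≠ k → c.E (a j) * c.E (a k) = -(c.E (a k) * c.E (a j)) := by
    intro j k hjk
    have h := (ha n c (a j) (a k)).1
    rw [hOa j k, if_neg hjk, mul_zero, zero_smul] at h
    exact eq_neg_of_add_eq_zero_left h
  have hEF : ∀ j k, c.E (a j) * c.F (a k) = -(c.F (a k) * c.E (a j)) := by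
    intro j k
    exact eq_neg_of_add_eq_zero_left (ha n c (a j) (a k)).2.2.1
  have hEt : ∀ j, (c.E (a j))ᵀ = c.E (a j) := fun j => (ha n c (a j) (a j)).2.2.2.1
  have hFt : ∀ j, (c.F (a j))ᵀ = -c.F (a j) := fun j => (ha n c (a j) (a j)).2.2.2.2
  have hCt : ∀ k, (c.E (a k) * c.F (a k))ᵀ = c.E (a k) * c.F (a k) := by
    intro k
    rw [Matrix.transpose_mul, hEt, hFt, neg_mul, hEF k k]
  have hCE : ∀ j k, (c.E (a k) * c.F (a k)) * c.E (a j) =
      (if k = j then (-1 : ℝ) else 1) • (c.E (a j) * (c.E (a k) * c.F (a k))) := by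
    intro j k
    have h1 : c.F (a k) * c.E (a j) = -(c.E (a j) * c.F (a k)) := by rw [hEF j k, neg_neg]
    rw [Matrix.mul_assoc, h1, mul_neg, ← Matrix.mul_assoc, ← Matrix.mul_assoc]
    split_ifs with h
    · rw [h, neg_one_smul]
    · rw [one_smul, hEk k j h, neg_mul, neg_neg]
  -- action on the eigenvectors
  have hact : ∀ j t k, (c.E (a k) * c.F (a k)).mulVec ((c.E (a j)).mulVec (u t)) =
      sg (flp j t k) • (c.E (a j)).mulVec (u t) := by
    intro j t k
    rw [Matrix.mulVec_mulVec, hCE, Matrix.smul_mulVec, ← Matrix.mulVec_mulVec, hC,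
      Matrix.mulVec_smul, smul_smul]
    congr 1
    unfold flp
    by_cases h : k = j
    · subst h
      rw [if_pos rfl, Function.update_self, sg_not]
      ring
    · rw [if_neg h, Function.update_of_ne h, one_mul]
  have hsym : ∀ k (x y : (Fin n → Bool) → ℝ), x ⬝ᵥ (c.E (a k) * c.F (a k)).mulVec y =
      (c.E (a k) * c.F (a k)).mulVec x ⬝ᵥ y := by
    intro k x y
    rw [Matrix.dotProduct_mulVec, ← Matrix.mulVec_transpose, hCt]
  have hzero : ∀ j s t, s ≠ flp j t → u s ⬝ᵥ (c.E (a j)).mulVec (u t) = 0 := by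
    intro j s t hst
    obtain ⟨k, hk⟩ := Function.ne_iff.mp hst
    have h1 := hsym k (u s) ((c.E (a j)).mulVec (u t))
    rw [hact, hC, dotProduct_smul, smul_dotProduct, smul_eq_mul, smul_eq_mul] at h1
    have h2 : (sg (flp j t k) - sg (s k)) * (u s ⬝ᵥ (c.E (a j)).mulVec (u t)) = 0 := by
      rw [sub_mul, h1, sub_self]
    rcases mul_eq_zero.mp h2 with h3 | h3
    · exact absurd (sub_eq_zero.mp h3).symm (sg_ne hk)
    · exact h3
  have hnorm : ∀ j t, (c.E (a j)).mulVec (u t) ⬝ᵥ (c.E (a j)).mulVec (u t) = 1 := by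
    intro j t
    rw [Matrix.dotProduct_mulVec, ← Matrix.mulVec_transpose, hEt, Matrix.mulVec_mulVec, hEE,
      Matrix.one_mulVec]
    have := hOu t t
    rw [if_pos rfl] at this
    exact this
  have hsq : ∀ j s t, (u s ⬝ᵥ (c.E (a j)).mulVec (u t)) ^ 2 = if s = flp j t then 1 else 0 := by
    intro j s t
    split_ifs with h
    · subst h
      have h1 := parseval hOu ((c.E (a j)).mulVec (u t))
      rw [hnorm, Finset.sum_eq_single (flp j t)] at h1
      · exact h1
      · intro s _ hs
        rw [hzero j s t hs]; norm_num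
      · intro h; exact absurd (Finset.mem_univ _) h
    · rw [hzero j s t h]; norm_num
  have hflp : ∀ (j k : Fin n) (t : Fin n → Bool), flp j t = flp k t → j = k := by
    intro j k t h
    by_contra hjk
    have h1 := congrFun h j
    unfold flp at h1
    rw [Function.update_self, Function.update_of_ne hjk] at h1
    cases ht : t j <;> simp [ht] at h1
  -- decomposition of the generator
  have hdec : ∀ s t, u s ⬝ᵥ (c.E v).mulVec (u t) =
      ∑ j, (∑ l, a j l * v l) * (u s ⬝ᵥ (c.E (a j)).mulVec (u t)) := by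
    intro s t
    have h1 : c.E v = ∑ j, (∑ l, a j l * v l) • c.E (a j) := by
      unfold Cliff.E
      simp only [Finset.smul_sum, smul_smul]
      rw [Finset.sum_comm]
      refine Finset.sum_congr rfl fun i _ => ?_
      rw [← Finset.sum_smul]
      congr 1
      have h2 : ∀ j, (∑ l, a j l * v l) * a j i = ∑ l, (a j l * a j i) * v l := by
        intro j
        rw [Finset.sum_mul]
        refine Finset.sum_congr rfl fun l _ => ?_
        ring
      simp only [h2]
      rw [Finset.sum_comm]
      simp only [← Finset.sum_mul, complete hOa]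
      simp
    rw [h1, Matrix.sum_mulVec, dotProduct_sum]
    refine Finset.sum_congr rfl fun j _ => ?_
    rw [Matrix.smul_mulVec, dotProduct_smul, smul_eq_mul]
  have hmain : ∀ s t, (u s ⬝ᵥ (c.E v).mulVec (u t)) ^ 2 =
      ∑ j, (∑ l, a j l * v l) ^ 2 * (if s = flp j t then 1 else 0) := by
    intro s t
    rw [hdec, sq, Finset.sum_mul_sum]
    refine Finset.sum_congr rfl fun j _ => ?_
    rw [Finset.sum_eq_single j]
    · rw [← hsq j s t]; ring
    · intro k _ hk
      by_cases h : s = flp j t
      · have h2 : s ≠ flp k t := by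
          intro h3
          exact hk (hflp k j t (h3.symm.trans h))
        rw [hzero k s t h2]; ring
      · rw [hzero j s t h]; ring
    · intro h; exact absurd (Finset.mem_univ _) h
  obtain ⟨_, _, _, h4⟩ := hp n nu
  obtain ⟨_, h5⟩ := h4 hnu
  simp only [hmain]
  calc ∑ s, ∑ t, √(pw nu s * pw nu t) *
        ∑ j, (∑ l, a j l * v l) ^ 2 * (if s = flp j t then (1 : ℝ) else 0)
      = ∑ t, ∑ j, (∑ l, a j l * v l) ^ 2 * √(pw nu (flp j t) * pw nu t) := by
        rw [Finset.sum_comm]
        refine Finset.sum_congr rfl fun t _ => ?_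
        simp only [Finset.mul_sum]
        rw [Finset.sum_comm]
        refine Finset.sum_congr rfl fun j _ => ?_
        rw [Finset.sum_eq_single (flp j t)]
        · rw [if_pos rfl]; ring
        · intro s _ hs
          rw [if_neg hs]; ring
        · intro h; exact absurd (Finset.mem_univ _) h
    _ = ∑ j, (∑ l, a j l * v l) ^ 2 * √(1 - nu j ^ 2) := by
        rw [Finset.sum_comm]
        refine Finset.sum_congr rfl fun j _ => ?_
        rw [← Finset.mul_sum, ← h5 j]
        congr 1
        refine Finset.sum_congr rfl fun t _ => ?_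
        rw [mul_comm (pw nu t)]

end Pool.Agent.W376.FB
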